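import Pool.Agent.Helper64.Hit.Final

/-!
# A hereditarily indecomposable space with a basis that is tight with constants

There is a real Banach space which is hereditarily indecomposable and has a Schauder basis that is tight with
constants; moreover the basis is asymptotically `ℓ_1` (with constant `320`).
-/

set_option autoImplicit false
open Filter Topology

namespace Pool.Agent.Results.MP_01865a_an.TightHI

open Pool.Agent.Helper64.Hit

/-- `X` is hereditarily indecomposable: no closed subspace `V` of `X` is the topological direct sum of two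
infinite-dimensional subspaces `U`, `W` (topological complements of each other in `V`, in particular closed). -/
def HereditarilyIndecomposable (X : Type) [NormedAddCommGroup X] [NormedSpace ℝ X] : Prop :=
  ∀ V : Submodule ℝ X, IsClosed (V : Set X) → ∀ U W : Submodule ℝ V,
    ¬ FiniteDimensional ℝ U → ¬ FiniteDimensional ℝ W → ¬ Submodule.IsTopCompl U W

/-- `Y ⊑_K Z`: there is a linear isomorphism `T` of `Y` onto a subspace `E` of `Z` with `‖T‖ ‖T⁻¹‖ ≤ K`. -/
def Embeds (K : ℝ) (Y Z : Type*) [NormedAddCommGroup Y] [NormedSpace ℝ Y] [NormedAddCommGroup Z]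
    [NormedSpace ℝ Z] : Prop :=
  ∃ (E : Submodule ℝ Z) (T : Y ≃L[ℝ] E), ‖(T : Y →L[ℝ] E)‖ * ‖(T.symm : E →L[ℝ] Y)‖ ≤ K

/-- The sequence `e` in `X` is tight with constants: for every infinite-dimensional Banach space `Y` there are
nonempty finite sets `I_0 < I_1 < ..` of natural numbers with `Y ⋢_K [e_n : n ∉ I_K]` for all `K`. -/
def TightWithConstants.{u} {X : Type} [NormedAddCommGroup X] [NormedSpace ℝ X] (e : ℕ → X) : Prop :=
  ∀ (Y : Type u) [NormedAddCommGroup Y] [NormedSpace ℝ Y] [CompleteSpace Y], ¬ FiniteDimensional ℝ Y →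
    ∃ I : ℕ → Finset ℕ, (∀ j, (I j).Nonempty) ∧ (∀ j, ∀ a ∈ I j, ∀ b ∈ I (j + 1), a < b) ∧
      ∀ K : ℕ, ¬ Embeds K Y (Submodule.span ℝ (e '' {n | n ∉ I K})).topologicalClosure

/-- The vector `∑ c_i e_i` for a finitely supported sequence `c`. -/
noncomputable def vec {X : Type} [NormedAddCommGroup X] [NormedSpace ℝ X] (e : ℕ → X) (c : ℕ →₀ ℝ) : X :=
  c.sum fun i t => t • e i

/-- The sequence `e` is asymptotically `ℓ_1` with constant `C`: for every `n` and all successive finitely supported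
vectors `x_1 < .. < x_n` of the `e_i` with `i ≥ n`, `‖x_1‖ + .. + ‖x_n‖ ≤ C ‖x_1 + .. + x_n‖`. -/
def AsymptoticL1 (C : ℝ) {X : Type} [NormedAddCommGroup X] [NormedSpace ℝ X] (e : ℕ → X) : Prop :=
  ∀ (n : ℕ) (x : Fin n → (ℕ →₀ ℝ)), (∀ j, ∀ i ∈ (x j).support, n ≤ i) →
    (∀ j k, j < k → ∀ a ∈ (x j).support, ∀ b ∈ (x k).support, a < b) →
    ∑ j, ‖vec e (x j)‖ ≤ C * ‖∑ j, vec e (x j)‖

section
variable {N : (ℕ →₀ ℝ) → ℝ} {X : Type} [NormedAddCommGroup X] [NormedSpace ℝ X]

private theorem vec_J (S : Ctx N X) (c : ℕ →₀ ℝ) :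
    vec (fun n => S.J (Finsupp.single n 1)) c = S.J c := by
  unfold vec
  conv_rhs => rw [← Finsupp.sum_single c]
  rw [Finsupp.sum, Finsupp.sum, map_sum]
  refine Finset.sum_congr rfl fun i _ => ?_
  rw [← map_smul, Finsupp.smul_single, smul_eq_mul, mul_one]

/-- the basis as a Schauder basis in the sense of Mathlib -/
private noncomputable def bas (S : Ctx N X) : SchauderBasis ℝ X where
  basis n := S.J (Finsupp.single n 1)
  coord := S.es
  ortho i j := by
    rw [S.es_J]
    rcases eq_or_ne i j with rfl | h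
    · simp
    · rw [Finsupp.single_eq_of_ne h]
      simp [h]
  expansion x := by
    have h := S.tend x
    rw [HasSum]
    simp only [SummationFilter.conditional_filter_eq_map_range]
    exact h

private theorem hi_of (S : Ctx N X) [CompleteSpace X]
    (n_hi : ∀ y w : ℕ → (ℕ →₀ ℝ), Blk y → Blk w → ∀ ε : ℝ, 0 < ε →
      ∃ a ∈ Submodule.span ℝ (Set.range y), ∃ b ∈ Submodule.span ℝ (Set.range w),
        N (a - b) < ε * N (a + b)) : HereditarilyIndecomposable X := by
  intro V hV U W hU hW h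
  have hce := hV.isClosedEmbedding_subtypeVal
  have hUc : IsClosed ((U.map V.subtype : Submodule ℝ X) : Set X) := by
    rw [Submodule.map_coe]
    exact hce.isClosedMap _ h.isClosed
  have hWc : IsClosed ((W.map V.subtype : Submodule ℝ X) : Set X) := by
    rw [Submodule.map_coe]
    exact hce.isClosedMap _ h.symm.isClosed
  have hinj : Function.Injective V.subtype := V.injective_subtype
  have hU' : ¬ FiniteDimensional ℝ (U.map V.subtype : Submodule ℝ X) := fun hf => hU
    (FiniteDimensional.of_injective (Submodule.equivMapOfInjective V.subtype hinj U).toLinearMap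
      (Submodule.equivMapOfInjective V.subtype hinj U).injective)
  have hW' : ¬ FiniteDimensional ℝ (W.map V.subtype : Submodule ℝ X) := fun hf => hW
    (FiniteDimensional.of_injective (Submodule.equivMapOfInjective V.subtype hinj W).toLinearMap
      (Submodule.equivMapOfInjective V.subtype hinj W).injective)
  refine S.hi n_hi _ _ hUc hWc hU' hW' ?_ ?_
  · rw [Submodule.disjoint_def]
    rintro x ⟨u, hu, rfl⟩ ⟨w, hw, hwu⟩
    have hwu' : w = u := hinj hwu
    subst hwu'
    have := (Submodule.disjoint_def.1 h.isCompl.disjoint) w hu hw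
    rw [this, map_zero]
  · rw [← Submodule.map_sup, h.isCompl.sup_eq_top, Submodule.map_subtype_top]
    exact hV

private theorem tight_of (S : Ctx N X)
    (ht : ∀ (Y : Submodule ℝ X), ¬ FiniteDimensional ℝ Y → ∀ K d : ℕ, ∃ b, d ≤ b ∧ ¬ ∃ T : Y →L[ℝ] X,
      (∀ y : Y, ‖y‖ ≤ ‖T y‖ ∧ ‖T y‖ ≤ (K : ℝ) * ‖y‖) ∧
      ∀ y : Y, T y ∈ (Submodule.span ℝ ((fun n => S.J (Finsupp.single n 1)) ''
        {n | n < d ∨ b < n})).topologicalClosure) :
    TightWithConstants (fun n => S.J (Finsupp.single n 1)) := by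
  intro Y _ _ _ hY
  by_cases hE : ∃ (E : Submodule ℝ X), Nonempty (Y ≃L[ℝ] E)
  · obtain ⟨E, ⟨T⟩⟩ := hE
    have hEf : ¬ FiniteDimensional ℝ E := fun hf => hY
      (FiniteDimensional.of_injective T.toLinearEquiv.toLinearMap T.injective)
    set A : ℝ := ‖(T : Y →L[ℝ] E)‖ * ‖(T.symm : E →L[ℝ] Y)‖ with hA
    have hA0 : 0 ≤ A := by positivity
    have h := fun K d => ht E hEf (⌈A⌉₊ * K) d
    choose b hb1 hb2 using h
    let a : ℕ → ℕ := fun n => Nat.rec 0 (fun k d => b k d + 1) n
    have ha : ∀ k, a (k + 1) = b k (a k) + 1 := fun k => rfl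
    refine ⟨fun k => Finset.Icc (a k) (b k (a k)), fun k => ⟨a k, ?_⟩, fun k x hx y hy => ?_, ?_⟩
    · exact Finset.mem_Icc.2 ⟨le_rfl, hb1 k (a k)⟩
    · rw [Finset.mem_Icc] at hx hy
      rw [ha] at hy
      omega
    · rintro K ⟨E', T', hT'⟩
      apply hb2 K (a K)
      set B : ℝ := ‖(T' : Y →L[ℝ] E')‖
      set B' : ℝ := ‖(T'.symm : E' →L[ℝ] Y)‖
      set A1 : ℝ := ‖(T : Y →L[ℝ] E)‖
      set A2 : ℝ := ‖(T.symm : E →L[ℝ] Y)‖
      have hB : 0 ≤ B := norm_nonneg (T' : Y →L[ℝ] E')
      have hB' : 0 ≤ B' := norm_nonneg (T'.symm : E' →L[ℝ] Y)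
      have hA1 : 0 ≤ A1 := norm_nonneg (T : Y →L[ℝ] E)
      have hA2 : 0 ≤ A2 := norm_nonneg (T.symm : E →L[ℝ] Y)
      have hset : {n | n ∉ Finset.Icc (a K) (b K (a K))} = {n | n < a K ∨ b K (a K) < n} := by
        ext n
        simp only [Set.mem_ofPred_eq, Finset.mem_Icc]
        omega
      -- lower bound
      have hlow : ∀ y : E, ‖y‖ ≤ A1 * B' * ‖T' (T.symm y)‖ := by
        intro y
        have h1 : ‖T (T.symm y)‖ ≤ A1 * ‖T.symm y‖ := (T : Y →L[ℝ] E).le_opNorm _
        have h2 : ‖T'.symm (T' (T.symm y))‖ ≤ B' * ‖T' (T.symm y)‖ :=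
          (T'.symm : E' →L[ℝ] Y).le_opNorm _
        rw [ContinuousLinearEquiv.apply_symm_apply] at h1
        rw [ContinuousLinearEquiv.symm_apply_apply] at h2
        calc ‖y‖ ≤ A1 * ‖T.symm y‖ := h1
          _ ≤ A1 * (B' * ‖T' (T.symm y)‖) := mul_le_mul_of_nonneg_left h2 hA1
          _ = A1 * B' * ‖T' (T.symm y)‖ := by ring
      have hup : ∀ y : E, ‖T' (T.symm y)‖ ≤ B * A2 * ‖y‖ := by
        intro y
        have h1 : ‖T.symm y‖ ≤ A2 * ‖y‖ := (T.symm : E →L[ℝ] Y).le_opNorm _
        have h2 : ‖T' (T.symm y)‖ ≤ B * ‖T.symm y‖ := (T' : Y →L[ℝ] E').le_opNorm _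
        calc ‖T' (T.symm y)‖ ≤ B * ‖T.symm y‖ := h2
          _ ≤ B * (A2 * ‖y‖) := mul_le_mul_of_nonneg_left h1 hB
          _ = B * A2 * ‖y‖ := by ring
      refine ⟨(A1 * B') • ((Submodule.subtypeL _).comp ((Submodule.subtypeL E').comp
        ((T' : Y →L[ℝ] E').comp (T.symm : E →L[ℝ] Y)))), fun y => ?_, fun y => ?_⟩
      · have hn : ‖((A1 * B') • ((Submodule.subtypeL _).comp ((Submodule.subtypeL E').comp
            ((T' : Y →L[ℝ] E').comp (T.symm : E →L[ℝ] Y))))) y‖ = A1 * B' * ‖T' (T.symm y)‖ := by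
          simp only [smul_apply, norm_smul, Real.norm_eq_abs]
          rw [abs_of_nonneg (by positivity)]
          rfl
        rw [hn]
        refine ⟨hlow y, ?_⟩
        have h3 : B * B' ≤ K := hT'
        have h4 : A1 * A2 ≤ (⌈A⌉₊ : ℝ) := Nat.le_ceil _
        calc A1 * B' * ‖T' (T.symm y)‖ ≤ A1 * B' * (B * A2 * ‖y‖) :=
              mul_le_mul_of_nonneg_left (hup y) (by positivity)
          _ = (A1 * A2) * (B * B') * ‖y‖ := by ring
          _ ≤ (⌈A⌉₊ : ℝ) * K * ‖y‖ := by
              refine mul_le_mul_of_nonneg_right ?_ (norm_nonneg _)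
              exact mul_le_mul h4 h3 (by positivity) (by positivity)
          _ = ((⌈A⌉₊ * K : ℕ) : ℝ) * ‖y‖ := by push_cast; ring
      · rw [← hset]
        refine Submodule.smul_mem _ _ ?_
        exact (T' (T.symm y)).1.2
  · refine ⟨fun k => {k}, fun k => Finset.singleton_nonempty k, fun j x hx y hy => ?_, ?_⟩
    · rw [Finset.mem_singleton] at hx hy
      omega
    · rintro K ⟨E', T', _⟩
      exact hE ⟨_, ⟨T'.trans ((Submodule.subtypeₗᵢ _).comp E'.subtypeₗᵢ).equivRange.toContinuousLinearEquiv⟩⟩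

end

/-- There is a real Banach space `X` with a Schauder basis `b` such that `X` is hereditarily indecomposable, and `b` is
tight with constants and asymptotically `ℓ_1`. -/
theorem result.{u} : ∃ (X : Type) (_ : NormedAddCommGroup X) (_ : NormedSpace ℝ X) (_ : CompleteSpace X)
    (b : SchauderBasis ℝ X), HereditarilyIndecomposable X ∧ TightWithConstants.{u} b ∧ AsymptoticL1 320 b := by
  obtain ⟨X, i1, i2, i3, J, hJ, hd⟩ := exists_completion (Nb 0) (Nb_add 0) (Nb_smul 0) (Nb_coord 0)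
  obtain ⟨S⟩ := exists_ctx (Nb_coord 0) Nb_cut J hJ hd
  refine ⟨X, i1, i2, i3, bas S, hi_of S n_hi, ?_, ?_⟩
  · refine tight_of S fun Y hY K d => ?_
    exact S.tight (fun _ _ _ u δ C hδ hu hform hlow => HH1.l1_extract u δ C hδ hu hform hlow) 320
      n_low n_hi n_join Y hY K d
  · intro n x h1 h2
    have hv : ∀ c, vec (bas S) c = S.J c := vec_J S
    simp only [hv, ← map_sum, S.norm_J]
    have h := n_low n (Finset.range n) (by simp) (fun k => if h : k < n then x ⟨k, h⟩ else 0) ?_ ?_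
    · rw [Finset.sum_range, Finset.sum_range] at h
      simpa using h
    · intro k hk i hi
      rw [Finset.mem_range] at hk
      simp only [dif_pos hk] at hi
      exact h1 _ i hi
    · intro k hk l hl hkl
      rw [Finset.mem_range] at hk hl
      simp only [dif_pos hk, dif_pos hl]
      exact h2 _ _ hkl

end Pool.Agent.Results.MP_01865a_an.TightHI
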